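import Mathlib
import Pool.Agent.R750.CV.Converse

/-! # MP_edeaa2_an: products of linear forms with countably many limit values in a cone

Let `l₁, ..., l_d` be the linear forms given by the rows of a real invertible matrix `g`, `d ≥ 3`,
let `F` be their product and let `J` be a proper nonempty set of indices. The following are
equivalent:

(a) the product of the `|l_k|`, `k ∈ J`, and the `max 1 |l_k|`, `k ∉ J`, is bounded away from zero at
the nonzero integer points at which the forms `l_k`, `k ∈ J`, are at most `r`, for some `r > 0`, and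
the limit values `t < T` of `|F|` at the integer points at which `l_k → 0` for `k ∈ J` and
`|l_k| → ∞` for `k ∉ J` form a countable set;

(b) `g = P h` with `F h` proportional to an integral form and bounded away from zero at the nonzero
integer points, and with a matrix `P` all of whose off-diagonal entries vanish, except possibly
those in a row outside `J` and a column in `J`.

In (b) the forms `l_k`, `k ∈ J`, are factors of `F h` up to constants, and the conjecture of Cassels
and Swinnerton-Dyer says that `F` itself can be bounded away from zero only if all factors are. The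
condition (a) concerns a part of the integer points only: for `J` = all indices but one and the
forms `q`, `q α_i - p_i` it is Littlewood's problem in `d - 1` dimensions. -/

set_option autoImplicit false

open Filter Topology

namespace Pool.Agent.Results.MP_edeaa2_an.ConeValues

variable {d : ℕ}

/-- the linear form given by the `k`-th row of `g`, at an integer point -/
noncomputable def L (g : Matrix (Fin d) (Fin d) ℝ) (k : Fin d) (x : Fin d → ℤ) : ℝ :=
  ∑ j : Fin d, g k j * (x j : ℝ)

/-- the product of the linear forms given by the rows of `g`, at an integer point -/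
noncomputable def F (g : Matrix (Fin d) (Fin d) ℝ) (x : Fin d → ℤ) : ℝ :=
  ∏ k : Fin d, L g k x

/-- the product of the linear forms is proportional to a form with integer coefficients -/
def PropInt (h : Matrix (Fin d) (Fin d) ℝ) : Prop :=
  ∃ c : ℝ, c ≠ 0 ∧ ∀ m : Fin d →₀ ℕ, ∃ z : ℤ, MvPolynomial.coeff m
    (c • (∏ i : Fin d, ∑ j : Fin d,
      MvPolynomial.C (h i j) * MvPolynomial.X j : MvPolynomial (Fin d) ℝ)) = (z : ℝ)

/-- the product of the linear forms is bounded away from zero at the nonzero integer points -/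
def BoundedBelow (h : Matrix (Fin d) (Fin d) ℝ) : Prop :=
  ∃ ν : ℝ, 0 < ν ∧ ∀ x : Fin d → ℤ, x ≠ 0 → ν ≤ |F h x|

/-- `T > (d! / d ^ d) V`, or more generally every product of `d` linear forms in `d` variables of
absolute determinant `V` takes a value of absolute value `< T` at a nonzero integer point -/
def Admissible (d : ℕ) (V T : ℝ) : Prop :=
  (d.factorial : ℝ) * V < (d : ℝ) ^ d * T ∨
    ∀ h : Matrix (Fin d) (Fin d) ℝ, |h.det| = V → ∃ x : Fin d → ℤ, x ≠ 0 ∧ |F h x| < T

/-- the product is bounded away from zero in the cone given by `J` -/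
def BelowInCone (J : Finset (Fin d)) (g : Matrix (Fin d) (Fin d) ℝ) : Prop :=
  ∃ ν r : ℝ, 0 < ν ∧ 0 < r ∧ ∀ x : Fin d → ℤ, x ≠ 0 → (∀ k ∈ J, |L g k x| ≤ r) →
    ν ≤ ∏ k, if k ∈ J then |L g k x| else max 1 |L g k x|

/-- The limit values of `|F g x|` at the integer points `x` for which the forms in `J` tend to zero
and the other forms tend to infinity. -/
def LimitInCone (J : Finset (Fin d)) (g : Matrix (Fin d) (Fin d) ℝ) : Set ℝ :=
  {t | ∀ (ε : ℝ) (N : ℕ), 0 < ε → ∃ x : Fin d → ℤ, (∀ k ∈ J, |L g k x| < ε) ∧
    (∀ k, k ∉ J → (N : ℝ) < |L g k x|) ∧ |(|F g x| - t)| < ε}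

lemma admissible {V T : ℝ} (hd : 0 < d) (hV : 0 < V) (hT : Admissible d V T) :
    ∀ h : Matrix (Fin d) (Fin d) ℝ, |h.det| = V →
      ∃ m : Fin d → ℤ, m ≠ 0 ∧ |H715R2.FF h (H715R2.iR m)| < T := by
  rcases hT with hT | hT
  · exact fun h hh => H715R2.mink_prod hd V T hV hT h hh
  · exact hT

theorem result (hd : 3 ≤ d) (J : Finset (Fin d)) (hJ : J.Nonempty) (hJ' : J ≠ Finset.univ)
    (g : Matrix (Fin d) (Fin d) ℝ) (hg : g.det ≠ 0) (T : ℝ) (hT : Admissible d |g.det| T) :
    (BelowInCone J g ∧ {t : ℝ | t < T ∧ t ∈ LimitInCone J g}.Countable) ↔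
      ∃ P h : Matrix (Fin d) (Fin d) ℝ, g = P * h ∧ PropInt h ∧ BoundedBelow h ∧
        ∀ k l, k ≠ l → ¬ (k ∉ J ∧ l ∈ J) → P k l = 0 := by
  constructor
  · rintro ⟨⟨ν, r, hν, hr, hB⟩, hC⟩
    obtain ⟨h, P, h1, h2, h3, h4⟩ := R750.CV.forward hd hJ hJ' hg hν hr hB
      (admissible (by omega) (abs_pos.2 hg) hT) hC
    exact ⟨P, h, h3, h1, h2, h4⟩
  · rintro ⟨P, h, rfl, hint, ⟨ν, hν, hnu⟩, hP⟩
    have hPd : P.det ≠ 0 := by
      intro h0
      apply hg
      rw [Matrix.det_mul, h0, zero_mul]
    obtain ⟨ν', hν', hB⟩ := R750.CV.bd_of_shape hP hPd hν hnu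
    refine ⟨⟨ν', 1, hν', one_pos, hB⟩, ?_⟩
    exact (R750.CV.limVal_shape hP hPd hint).mono fun t ht => ht.2

end Pool.Agent.Results.MP_edeaa2_an.ConeValues
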