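import Mathlib
import Pool.Agent.R750.FI.Isolate

/-! # MP_edeaa2_an: isolation of products of linear forms with a field of symmetries

Let `h` be a real invertible `d × d` matrix such that the product `F h` of the linear forms given by
its rows is bounded away from zero at the nonzero integer points. The rational matrices `σ` for
which `h σ h⁻¹` is diagonal form a totally real field `Sym h`, of a degree which divides `d`. The
degree is `d` if and only if `F h` is proportional to an integral form (if `d ≥ 3`), and the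
theorem of Cassels and Swinnerton-Dyer says that in this case `F h` is isolated among the forms
bounded below by a given `ν > 0`: near `h` there are only the matrices `a h`, `a` diagonal.

Here this is proved for all fields of degree at least three, where `h` need not lie on a compact
orbit of the diagonal group.

1. If the degree of `Sym h` is at least three (some `h σ₀ h⁻¹` has three distinct diagonal entries),
   then for every `ν > 0` there is a neighbourhood of `h` in which `|F g| ≥ ν` at all nonzero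
   integer points implies `g σ g⁻¹ = h σ h⁻¹` for all `σ` in `Sym h`. In other words, `g = b h` with
   `b` commuting with the diagonal matrices `h σ h⁻¹`: the conjecture of Cassels and Swinnerton-Dyer
   reduces near `h` to the closed orbit of the centraliser.
2. If `F g` is bounded away from zero and such an `h` lies in the closure of the set of the matrices
   `diag(a) g γ`, then after an integral change of variables all symmetries of `h` are symmetries
   of `g`. -/

set_option autoImplicit false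

open Filter Topology Matrix

namespace Pool.Agent.Results.MP_edeaa2_an.FieldIsolation

variable {d : ℕ}

/-- the product of the linear forms given by the rows of `h`, at an integer point -/
noncomputable def F (h : Matrix (Fin d) (Fin d) ℝ) (x : Fin d → ℤ) : ℝ :=
  ∏ i : Fin d, ∑ j : Fin d, h i j * (x j : ℝ)

/-- the product of the linear forms is bounded away from zero at the nonzero integer points -/
def BoundedBelow (h : Matrix (Fin d) (Fin d) ℝ) : Prop :=
  ∃ ν : ℝ, 0 < ν ∧ ∀ x : Fin d → ℤ, x ≠ 0 → ν ≤ |F h x|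

/-- The closure of the set of matrices `diag(a) g γ` with `a` positive of product one and `γ`
integral of determinant `±1`. -/
def OrbitClosure (g : Matrix (Fin d) (Fin d) ℝ) : Set (Matrix (Fin d) (Fin d) ℝ) :=
  closure {h | ∃ (a : Fin d → ℝ) (γ : Matrix (Fin d) (Fin d) ℤ), (∀ i, 0 < a i) ∧ ∏ i, a i = 1 ∧
    |γ.det| = 1 ∧ h = Matrix.diagonal a * g * γ.map (Int.cast : ℤ → ℝ)}

/-- the conjugate `h σ h⁻¹` of a rational matrix -/
noncomputable def conj (h : Matrix (Fin d) (Fin d) ℝ) (σ : Matrix (Fin d) (Fin d) ℚ) :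
    Matrix (Fin d) (Fin d) ℝ :=
  h * σ.map (Rat.cast : ℚ → ℝ) * h⁻¹

/-- the rational matrices which `h` conjugates to diagonal matrices -/
def Sym (h : Matrix (Fin d) (Fin d) ℝ) : Set (Matrix (Fin d) (Fin d) ℚ) :=
  {σ | (conj h σ).IsDiag}

lemma kap_lin (σ : Matrix (Fin d) (Fin d) ℚ) :
    Y327.kap (Matrix.toLin' σ) = σ.map (Rat.cast : ℚ → ℝ) := by
  ext a b
  rw [Y327.kap_apply, Matrix.map_apply, Matrix.toLin'_apply, Matrix.mulVec_single_one]
  rfl

lemma dg_lin {h : Matrix (Fin d) (Fin d) ℝ} {σ : Matrix (Fin d) (Fin d) ℚ} (hσ : σ ∈ Sym h) :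
    Y327.Dg h (Matrix.toLin' σ) := by
  intro i j hij
  rw [kap_lin]
  exact hσ hij

lemma conj_eq_diag {h : Matrix (Fin d) (Fin d) ℝ} {σ : Matrix (Fin d) (Fin d) ℚ}
    (hσ : σ ∈ Sym h) : conj h σ = Matrix.diagonal (fun l => conj h σ l l) := by
  ext i j
  by_cases hij : i = j
  · subst hij; rw [Matrix.diagonal_apply_eq]
  · rw [Matrix.diagonal_apply_ne _ hij, hσ hij]

theorem result (hd : 0 < d) (h : Matrix (Fin d) (Fin d) ℝ) (hdet : h.det ≠ 0)
    (hb : BoundedBelow h) (σ₀ : Matrix (Fin d) (Fin d) ℚ) (hσ₀ : σ₀ ∈ Sym h) (i j k : Fin d)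
    (hij : conj h σ₀ i i ≠ conj h σ₀ j j) (hjk : conj h σ₀ j j ≠ conj h σ₀ k k)
    (hik : conj h σ₀ i i ≠ conj h σ₀ k k) :
    (∀ ν : ℝ, 0 < ν → ∃ δ : ℝ, 0 < δ ∧ ∀ g : Matrix (Fin d) (Fin d) ℝ,
      (∀ a b, |g a b - h a b| < δ) → (∀ x : Fin d → ℤ, x ≠ 0 → ν ≤ |F g x|) →
      ∀ σ ∈ Sym h, conj g σ = conj h σ) ∧
    (∀ g : Matrix (Fin d) (Fin d) ℝ, g.det ≠ 0 → BoundedBelow g → h ∈ OrbitClosure g →
      ∃ γ : Matrix (Fin d) (Fin d) ℤ, |γ.det| = 1 ∧ ∀ σ ∈ Sym h,
        conj (g * γ.map (Int.cast : ℤ → ℝ)) σ = conj h σ) := by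
  classical
  obtain ⟨ν₀, hν₀, hnu₀⟩ := hb
  have hu : IsUnit h.det := isUnit_iff_ne_zero.2 hdet
  have key : ∀ ν : ℝ, 0 < ν → ∀ᶠ g in 𝓝 h, H715R2.HasNu g ν →
      ∀ σ ∈ Sym h, conj g σ = conj h σ := by
    intro ν hν
    have e0 : ∀ l, (h * Y327.kap (Matrix.toLin' σ₀) * h⁻¹) l l = conj h σ₀ l l := by
      intro l; rw [kap_lin]; rfl
    have h1 := R750.FI.isolate hd hν₀ (show H715R2.HasNu h ν₀ from hnu₀) hu (dg_lin hσ₀)
      (p := i) (q := j) (r := k) (by rw [e0, e0]; exact hij) (by rw [e0, e0]; exact hjk)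
      (by rw [e0, e0]; exact hik) hν
    have hc : Continuous fun g : Matrix (Fin d) (Fin d) ℝ => g.det :=
      Continuous.matrix_det continuous_id
    have h2 : ∀ᶠ g in 𝓝 h, g.det ≠ 0 := (hc.tendsto h).eventually_ne hdet
    filter_upwards [h1, h2] with g hg1 hg2 hnu σ hσ
    have h3 := hg1 hnu (Matrix.toLin' σ) (dg_lin hσ)
    rw [kap_lin] at h3
    show g * σ.map (Rat.cast : ℚ → ℝ) * g⁻¹ = _
    rw [h3, Matrix.mul_assoc, Matrix.mul_nonsing_inv _ (isUnit_iff_ne_zero.2 hg2), Matrix.mul_one]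
    exact (conj_eq_diag hσ).symm
  refine ⟨?_, ?_⟩
  · intro ν hν
    have h1 : ∀ᶠ g in @nhds (Fin d → Fin d → ℝ) inferInstance h, H715R2.HasNu g ν →
      ∀ σ ∈ Sym h, conj g σ = conj h σ := key ν hν
    obtain ⟨δ, hδ, h2⟩ := (Metric.eventually_nhds_iff (α := Fin d → Fin d → ℝ)).1 h1
    refine ⟨δ, hδ, fun g hg hnu => h2 ?_ (show H715R2.HasNu g ν from hnu)⟩
    rw [dist_pi_lt_iff hδ]
    intro a
    rw [dist_pi_lt_iff hδ]
    intro b
    rw [Real.dist_eq]
    exact hg a b
  · intro g hg ⟨ν, hν, hnu⟩ hh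
    have hnu' : H715R2.HasNu g ν := hnu
    obtain ⟨u, ⟨a, γ, ha0, ha1, hγ, rfl⟩, hu2⟩ :=
      ((mem_closure_iff_frequently.1 hh).and_eventually (key ν hν)).exists
    have hγu : IsUnit γ.det := Int.isUnit_iff_abs_eq.2 hγ
    have hnu2 : H715R2.HasNu (Matrix.diagonal a * g * γ.map (Int.cast : ℤ → ℝ)) ν := by
      intro m hm
      have h3 := H715R2.FF_orb ha1 g γ m
      unfold H715R2.zR at h3
      rw [h3]
      exact hnu' _ fun h0 => hm (by
        have h4 : γ⁻¹ *ᵥ (γ *ᵥ m) = 0 := by rw [h0, Matrix.mulVec_zero]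
        rwa [Matrix.mulVec_mulVec, Matrix.nonsing_inv_mul _ hγu, Matrix.one_mulVec] at h4)
    refine ⟨γ, hγ, fun σ hσ => ?_⟩
    have h3 := hu2 hnu2 σ hσ
    have hda : (Matrix.diagonal a).det ≠ 0 := by
      rw [Matrix.det_diagonal, ha1]; exact one_ne_zero
    have hdu : IsUnit (Matrix.diagonal a).det := isUnit_iff_ne_zero.2 hda
    set G : Matrix (Fin d) (Fin d) ℝ := g * γ.map (Int.cast : ℤ → ℝ) with hG
    have h4 : Matrix.diagonal a * g * γ.map (Int.cast : ℤ → ℝ) = Matrix.diagonal a * G := by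
      rw [hG, Matrix.mul_assoc]
    rw [h4] at h3
    have h5 : conj (Matrix.diagonal a * G) σ =
        Matrix.diagonal a * conj G σ * (Matrix.diagonal a)⁻¹ := by
      unfold conj
      rw [Matrix.mul_inv_rev]
      simp only [Matrix.mul_assoc]
    rw [h5] at h3
    have h6 : conj G σ = (Matrix.diagonal a)⁻¹ * conj h σ * Matrix.diagonal a := by
      rw [← h3]
      calc conj G σ = ((Matrix.diagonal a)⁻¹ * Matrix.diagonal a) * conj G σ *
            ((Matrix.diagonal a)⁻¹ * Matrix.diagonal a) := by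
            rw [Matrix.nonsing_inv_mul _ hdu, Matrix.one_mul, Matrix.mul_one]
        _ = _ := by simp only [Matrix.mul_assoc]
    rw [h6, conj_eq_diag hσ, Matrix.mul_assoc]
    have h7 : Matrix.diagonal (fun l => conj h σ l l) * Matrix.diagonal a =
        Matrix.diagonal a * Matrix.diagonal (fun l => conj h σ l l) := by
      rw [Matrix.diagonal_mul_diagonal, Matrix.diagonal_mul_diagonal]
      congr 1
      funext l
      exact mul_comm _ _
    rw [h7, ← Matrix.mul_assoc, Matrix.nonsing_inv_mul _ hdu, Matrix.one_mul]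

end Pool.Agent.Results.MP_edeaa2_an.FieldIsolation
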