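import Mathlib
import Pool.Agent.R629.CSD.Main

/-! # MP_edeaa2_an: products of linear forms, some of which span an invariant subspace of a
rational matrix

Let `d ≥ 3`, let `g` be a real invertible `d × d` matrix and let `F` be the product of the linear
forms given by its rows. Let `h` be a limit of matrices `diag(a_n) g γ_n` with `∏ a_n = ±1` and
`γ_n ∈ GL_d(ℤ)`; for example `h = g`. Let `A` be a rational `d × d` matrix with irreducible
characteristic polynomial and let `S` be a set of `m` rows of `h`, `0 < m < d`, whose span is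
invariant under `A`. Let `m` be prime to `d`, or more generally let there be no element of the
field `ℚ[A]` whose degree `k < d` satisfies `d ∣ k m`. Then `F` is proportional to an integral form
or `F` takes arbitrarily small values at nonzero integer points.

For `m = 1` the row is an eigenvector of `A`: its coefficients are, up to scaling, a basis of a
real number field of degree `d`. For `m = d - 1` the common zero line of `d - 1` of the forms is
spanned by such a vector. -/

open Filter Topology

namespace Pool.Agent.Results.MP_edeaa2_an.InvariantSubspace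

theorem result (d : ℕ) (hd : 3 ≤ d) (g h : Matrix (Fin d) (Fin d) ℝ) (hg : g.det ≠ 0)
    (a : ℕ → Fin d → ℝ) (γ : ℕ → Matrix (Fin d) (Fin d) ℤ)
    (ha : ∀ n, |∏ i, a n i| = 1) (hγ : ∀ n, |(γ n).det| = 1)
    (hlim : Tendsto (fun n => Matrix.diagonal (a n) * g * (γ n).map (Int.cast : ℤ → ℝ)) atTop
      (𝓝 h))
    (A : Matrix (Fin d) (Fin d) ℚ) (hA : Irreducible A.charpoly)
    (S : Finset (Fin d)) (hS : 0 < S.card) (hSd : S.card < d)
    (hinv : ∀ i ∈ S, ∃ c : Fin d → ℝ, ∀ j : Fin d,
      ∑ k : Fin d, h i k * (A k j : ℝ) = ∑ k ∈ S, c k * h k j)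
    (hprim : Nat.Coprime S.card d ∨ ∀ B ∈ Algebra.adjoin ℚ {A}, (minpoly ℚ B).natDegree < d →
      ¬ d ∣ (minpoly ℚ B).natDegree * S.card) :
    (∃ c : ℝ, c ≠ 0 ∧ ∀ m : Fin d →₀ ℕ, ∃ z : ℤ, MvPolynomial.coeff m
        (c • (∏ i : Fin d, ∑ j : Fin d,
          MvPolynomial.C (g i j) * MvPolynomial.X j : MvPolynomial (Fin d) ℝ)) = (z : ℝ)) ∨
    ∀ ε : ℝ, 0 < ε → ∃ x : Fin d → ℤ, x ≠ 0 ∧
      |∏ i : Fin d, ∑ j : Fin d, g i j * (x j : ℝ)| < ε :=
  Pool.Agent.R629.CSD.main hd hg a γ ha hγ hlim A hA S hS hSd hinv hprim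

end Pool.Agent.Results.MP_edeaa2_an.InvariantSubspace
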