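import Mathlib
import Pool.Agent.R750.SI.Many
import Pool.Agent.R750.SI.Lower

/-! # MP_edeaa2_an: the isolation theorem of Cassels and Swinnerton-Dyer with sharp rates

Let `d ≥ 3` and let `g₀` be a real invertible `d × d` matrix such that the product `F g₀` of the
linear forms given by its rows is proportional to an integral form and bounded away from zero at the
nonzero integer points. Every matrix near `g₀`, up to multiplication of its rows by constants, is
`(1 + X) g₀` with a small matrix `X` with zero diagonal. Let `δ` be the largest absolute value of an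
entry of `X ≠ 0`. Cassels and Swinnerton-Dyer proved that `F ((1 + X) g₀)` has arbitrarily small
values at nonzero integer points if `δ` is small enough. Here it is shown where they appear.

1. For all `ε, T > 0` there are `C, c, δ₀ > 0` such that for `0 < δ < δ₀`, every diagonal matrix `D`
   with `1 / T ≤ |det D| ≤ T`, every real `t` with `|t| ≤ T` and every `Z ≥ C δ ^ (- 1 / d)`, there
   are at least `c (1 + log (min Z δ⁻¹ * δ ^ (1 / d))) ^ (d - 2)` nonzero integer points `x` of norm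
   at most `Z` with `|F (D (1 + X) g₀) x - t| < ε`.
2. For all `ε, T > 0` there is `c > 0` such that `|F (D (1 + X) g₀) x - det D F g₀ x| < ε` at all
   integer points `x` of norm at most `c δ ^ (- 1 / d)`, if `|det D| ≤ T`, `δ ≤ 1`. So the first
   value near a number `t` which is not near a value of `det D F g₀`, in particular the first value
   close to zero, appears exactly at the scale `δ ^ (- 1 / d)`. -/

set_option autoImplicit false

open Filter Topology

namespace Pool.Agent.Results.MP_edeaa2_an.SharpIsolation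

variable {d : ℕ}

/-- the product of the linear forms given by the rows of `h`, at an integer point -/
noncomputable def F (h : Matrix (Fin d) (Fin d) ℝ) (x : Fin d → ℤ) : ℝ :=
  ∏ i : Fin d, ∑ j : Fin d, h i j * (x j : ℝ)

/-- the product of the linear forms is proportional to a form with integer coefficients -/
def PropInt (h : Matrix (Fin d) (Fin d) ℝ) : Prop :=
  ∃ c : ℝ, c ≠ 0 ∧ ∀ m : Fin d →₀ ℕ, ∃ z : ℤ, MvPolynomial.coeff m
    (c • (∏ i : Fin d, ∑ j : Fin d,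
      MvPolynomial.C (h i j) * MvPolynomial.X j : MvPolynomial (Fin d) ℝ)) = (z : ℝ)

/-- the product of the linear forms is bounded away from zero at the nonzero integer points -/
def BoundedBelow (h : Matrix (Fin d) (Fin d) ℝ) : Prop :=
  ∃ ν : ℝ, 0 < ν ∧ ∀ x : Fin d → ℤ, x ≠ 0 → ν ≤ |F h x|

/-- `X` has zero diagonal and largest absolute value of an entry `δ` -/
def OffDiag (X : Matrix (Fin d) (Fin d) ℝ) (δ : ℝ) : Prop :=
  (∀ k, X k k = 0) ∧ (∀ i j, |X i j| ≤ δ) ∧ ∃ i j, |X i j| = δ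

/-- the nonzero integer points `x` of norm at most `Z` with `|F h x - t| < ε` -/
def Near (h : Matrix (Fin d) (Fin d) ℝ) (t ε Z : ℝ) : Set (Fin d → ℤ) :=
  {x | x ≠ 0 ∧ (∀ k, |(x k : ℝ)| ≤ Z) ∧ |F h x - t| < ε}

lemma near_finite (h : Matrix (Fin d) (Fin d) ℝ) (t ε Z : ℝ) : (Near h t ε Z).Finite := by
  refine (Set.finite_Icc (fun _ : Fin d => -⌊Z⌋) (fun _ => ⌊Z⌋)).subset ?_
  rintro x ⟨-, hx, -⟩
  refine ⟨fun k => ?_, fun k => ?_⟩
  · have h1 := (abs_le.1 (hx k)).1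
    have h2 : ((-(x k) : ℤ) : ℝ) ≤ Z := by push_cast; linarith
    have h3 := Int.le_floor.2 h2
    show -⌊Z⌋ ≤ x k
    linarith
  · exact Int.le_floor.2 (abs_le.1 (hx k)).2

theorem result (hd : 3 ≤ d) (g₀ : Matrix (Fin d) (Fin d) ℝ) (hg₀ : g₀.det ≠ 0)
    (hint : PropInt g₀) (hbdd : BoundedBelow g₀) (ε T : ℝ) (hε : 0 < ε) (hT : 0 < T) :
    (∃ C c δ₀ : ℝ, 0 < C ∧ 0 < c ∧ 0 < δ₀ ∧
      ∀ (D : Fin d → ℝ) (X : Matrix (Fin d) (Fin d) ℝ) (δ : ℝ), T⁻¹ ≤ |∏ k, D k| →
        |∏ k, D k| ≤ T → OffDiag X δ → 0 < δ → δ < δ₀ → ∀ t Z : ℝ, |t| ≤ T →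
        C * δ ^ (-(1 / (d : ℝ))) ≤ Z →
        c * (1 + Real.log (min Z δ⁻¹ * δ ^ (1 / (d : ℝ)))) ^ (d - 2) ≤
          (Near (Matrix.diagonal D * ((1 + X) * g₀)) t ε Z).ncard) ∧
    (∃ c : ℝ, 0 < c ∧ ∀ (D : Fin d → ℝ) (X : Matrix (Fin d) (Fin d) ℝ) (δ : ℝ),
      |∏ k, D k| ≤ T → OffDiag X δ → 0 < δ → δ ≤ 1 →
      ∀ x : Fin d → ℤ, (∀ k, |(x k : ℝ)| ≤ c * δ ^ (-(1 / (d : ℝ)))) →
      |F (Matrix.diagonal D * ((1 + X) * g₀)) x - (∏ k, D k) * F g₀ x| < ε) := by
  obtain ⟨ν, hν, hnu⟩ := hbdd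
  have hd0 : 0 < d := by omega
  have hF : ∀ (D : Fin d → ℝ) (h : Matrix (Fin d) (Fin d) ℝ) (x : Fin d → ℤ),
      F (Matrix.diagonal D * h) x = (∏ k, D k) * H715R2.FF h (H715R2.iR x) := fun D h x =>
    H715R2.FF_diag_mul D h (H715R2.iR x)
  refine ⟨?_, ?_⟩
  · obtain ⟨C, c, δ₀, hC, hc, hδ₀, h⟩ := R750.SI.many hd hg₀ hν hnu hint (ε / T) (T * T)
      (by positivity)
    -- the smallest admissible radius must be below `δ⁻¹`
    refine ⟨C, c, min δ₀ (min 1 (C⁻¹ ^ 2)), hC, hc, by positivity, ?_⟩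
    intro D X δ hD1 hD2 hX hδ hδ1 t Z ht hZ
    have hδ2 : δ < δ₀ := lt_of_lt_of_le hδ1 (min_le_left _ _)
    have hδ3 : δ < 1 := lt_of_lt_of_le hδ1 ((min_le_right _ _).trans (min_le_left _ _))
    have hδ4 : δ < C⁻¹ ^ 2 := lt_of_lt_of_le hδ1 ((min_le_right _ _).trans (min_le_right _ _))
    have hD0 : 0 < |∏ k, D k| := lt_of_lt_of_le (by positivity) hD1
    have hdR : (0 : ℝ) < d := by exact_mod_cast hd0
    have hCδ : C * δ ^ (-(1 / (d : ℝ))) ≤ δ⁻¹ := by
      have h1 : δ ^ (-(1 / (d : ℝ))) ≤ δ ^ (-(1 / 2 : ℝ)) := by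
        refine Real.rpow_le_rpow_of_exponent_ge hδ hδ3.le ?_
        have h2 : (2 : ℝ) ≤ d := by exact_mod_cast (by omega : 2 ≤ d)
        have h3 : 1 / (d : ℝ) ≤ 1 / 2 := one_div_le_one_div_of_le (by norm_num) h2
        linarith
      have h2 : C ≤ δ ^ (-(1 / 2 : ℝ)) := by
        have h3 : δ ^ (1 / 2 : ℝ) ≤ C⁻¹ := by
          rw [← Real.sqrt_eq_rpow]
          exact (Real.sqrt_le_sqrt hδ4.le).trans (le_of_eq (Real.sqrt_sq (by positivity)))
        rw [Real.rpow_neg hδ.le]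
        exact (le_inv_comm₀ (by positivity) hC).1 h3
      calc C * δ ^ (-(1 / (d : ℝ))) ≤ δ ^ (-(1 / 2 : ℝ)) * δ ^ (-(1 / 2 : ℝ)) :=
            mul_le_mul h2 h1 (by positivity) (by positivity)
        _ = δ⁻¹ := by
            rw [← Real.rpow_add hδ]
            norm_num
            exact Real.rpow_neg_one δ
    obtain ⟨S, hS, hcard⟩ := h X δ hX.1 hX.2.1 hX.2.2 hδ hδ2 (t / ∏ k, D k) (min Z δ⁻¹) (by
        rw [abs_div, div_le_iff₀ hD0]
        have h1 : T⁻¹ * T = 1 := inv_mul_cancel₀ hT.ne'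
        have h2 : T * T * T⁻¹ ≤ T * T * |∏ k, D k| := mul_le_mul_of_nonneg_left hD1 (by positivity)
        have h3 : T * T * T⁻¹ = T := by field_simp
        linarith) (le_min hZ hCδ) (min_le_right _ _)
    refine hcard.trans ?_
    rw [← Set.ncard_coe_finset]
    have hsub : (↑S : Set (Fin d → ℤ)) ⊆ Near (Matrix.diagonal D * ((1 + X) * g₀)) t ε Z := by
      intro x hx
      obtain ⟨h1, h2, h3⟩ := hS x (Finset.mem_coe.1 hx)
      refine ⟨h1, fun k => (h2 k).trans (min_le_left _ _), ?_⟩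
      rw [hF]
      have h4 : (∏ k, D k) * H715R2.FF ((1 + X) * g₀) (H715R2.iR x) - t =
          (∏ k, D k) * (H715R2.FF ((1 + X) * g₀) (H715R2.iR x) - t / ∏ k, D k) := by
        rw [mul_sub, mul_div_cancel₀ _ (abs_pos.1 hD0)]
      rw [h4, abs_mul]
      calc |∏ k, D k| * |H715R2.FF ((1 + X) * g₀) (H715R2.iR x) - t / ∏ k, D k|
          ≤ T * |H715R2.FF ((1 + X) * g₀) (H715R2.iR x) - t / ∏ k, D k| :=
            mul_le_mul_of_nonneg_right hD2 (abs_nonneg _)
        _ < T * (ε / T) := mul_lt_mul_of_pos_left h3 hT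
        _ = ε := by field_simp
    exact_mod_cast Set.ncard_le_ncard hsub (near_finite _ _ _ _)
  · obtain ⟨c, hc, h⟩ := R750.SI.lower hd0 g₀ (ε / T) (by positivity)
    refine ⟨c, hc, ?_⟩
    intro D X δ hD hX hδ hδ1 x hx
    have h1 := h X δ hX.2.1 hδ hδ1 x hx
    rw [hF]
    have h2 : (∏ k, D k) * H715R2.FF ((1 + X) * g₀) (H715R2.iR x) - (∏ k, D k) * F g₀ x =
        (∏ k, D k) * (H715R2.FF ((1 + X) * g₀) (H715R2.iR x) - H715R2.FF g₀ (H715R2.iR x)) := by
      rw [mul_sub]; rfl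
    rw [h2, abs_mul]
    calc |∏ k, D k| * |H715R2.FF ((1 + X) * g₀) (H715R2.iR x) - H715R2.FF g₀ (H715R2.iR x)|
        ≤ T * |H715R2.FF ((1 + X) * g₀) (H715R2.iR x) - H715R2.FF g₀ (H715R2.iR x)| :=
          mul_le_mul_of_nonneg_right hD (abs_nonneg _)
      _ < T * (ε / T) := mul_lt_mul_of_pos_left h1 hT
      _ = ε := by field_simp

end Pool.Agent.Results.MP_edeaa2_an.SharpIsolation
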